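import Pool.Agent.L0h47.CGS.Bridge

/-!
# The Calegari–Geraghty vanishing conjecture for `GL_3` over the rational numbers

For `G = GL_3` over the rational numbers the symmetric space has dimension `5`, `ℓ_0 = 1` and
`q_0 = 2`.  A non-Eisenstein maximal ideal of the spherical Hecke algebra occurs in the cohomology
of `Y(K_f)`, with any coefficients, only in the degrees `q_0 = 2` and `q_0 + ℓ_0 = 3`.
-/

set_option autoImplicit false

namespace Pool.Agent.Results.MP_34be05_nt.GLThreeVanishing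

open Pool.Agent.L0h47.CGS

theorem result {Sg : Finset Pr} (L : Level 3 Sg) (hL : L.TorsionFree) {p : Pr} (hp : p ∈ Sg)
    {O : Type} [CommRing O] [IsNoetherianRing O] {W : Type} [AddCommGroup W] [Module O W]
    [Module.Finite O W] (C : Coef L p O W) {k : Type} [Field k] [Finite k] [CharP k (p : ℕ)]
    [Algebra O k] (θ : HA 3 Sg O →ₐ[O] k) {e t : ℤ} (he : e = 1 ∨ e = -1)
    {F : Type} [Field F] [NumberField F] [IsGalois ℚ F] (ρ : Gal(F/ℚ) →* GL (Fin 3) k)
    (hatt : Attached θ e t ρ) (hirr : AbsIrr ρ) {i : ℕ} (h : C.LocNe hp i θ) :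
    2 ≤ i ∧ i ≤ 3 :=
  ⟨Pool.Agent.L0h47.CG.low_main le_rfl hp C.old (oldθ θ) he ρ (attached_old θ e t ρ hatt) (absIrr_old hirr)
    (locNe_old C hp i θ h), C.old.high (torsionFree_old hL) hp (oldθ θ) (locNe_old C hp i θ h)⟩

end Pool.Agent.Results.MP_34be05_nt.GLThreeVanishing
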