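import Pool.Agent.L0h47.NF.Final2
import Pool.Agent.L0h47.NFS.Bridge

/-!
# Non-Eisenstein ideals do not occur in degrees zero and one for `GL_2` over a number field with
infinitely many units
-/

set_option autoImplicit false

namespace Pool.Agent.Results.MP_34be05_nt.GLTwoInfinitelyManyUnits

open NumberField Pool.Agent.L0h47.NFS

theorem result {F : Type} [Field F] [NumberField F] (hF : 2 ≤ Fintype.card (InfinitePlace F))
    {Sg : Finset (Pl F)} (L : Level 2 Sg) {p : ℕ} (hp : p.Prime) {O : Type} [CommRing O]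
    {W : Type} [AddCommGroup W] [Module O W] (C : Coef L p O W) {k : Type} [Field k] [Finite k]
    [CharP k p] [Algebra O k] (θ : HA 2 Sg O →ₐ[O] k) {e t : ℤ}
    (he : e = 1 ∨ e = -1) {E : Type} [Field E] [NumberField E] [Algebra F E] [IsGalois F E]
    (ρ : Gal(E/F) →* GL (Fin 2) k) (hatt : Attached θ e t ρ) (hirr : AbsIrr ρ) {i : ℕ}
    (h : C.LocNe i θ) :
    2 ≤ i :=
  Pool.Agent.L0h47.NF.fin2_main F hF Sg L.old p O W C.old hp k (oldθ θ) e t he E ρ
    (attached_old θ e t ρ hatt) (absIrr_old hirr) i (locNe_old C i θ h)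

end Pool.Agent.Results.MP_34be05_nt.GLTwoInfinitelyManyUnits
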