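import Pool.Agent.L0h47.CGS.Bridge

/-!
# Non-Eisenstein ideals do not occur in degrees zero and one for `GL_n` over the rational numbers
-/

set_option autoImplicit false

namespace Pool.Agent.Results.MP_34be05_nt.GLnLowDegrees

open Pool.Agent.L0h47.CGS

theorem result {n : ℕ} (hn : 3 ≤ n) {Sg : Finset Pr} (L : Level n Sg) {p : Pr} (hp : p ∈ Sg)
    {O : Type} [CommRing O] [IsNoetherianRing O] {W : Type} [AddCommGroup W] [Module O W]
    [Module.Finite O W] (C : Coef L p O W) {k : Type} [Field k] [Finite k] [CharP k (p : ℕ)]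
    [Algebra O k] (θ : HA n Sg O →ₐ[O] k) {e t : ℤ} (he : e = 1 ∨ e = -1)
    {F : Type} [Field F] [NumberField F] [IsGalois ℚ F] (ρ : Gal(F/ℚ) →* GL (Fin n) k)
    (hatt : Attached θ e t ρ) (hirr : AbsIrr ρ) {i : ℕ} (h : C.LocNe hp i θ) :
    2 ≤ i :=
  Pool.Agent.L0h47.CG.low_main hn hp C.old (oldθ θ) he ρ (attached_old θ e t ρ hatt) (absIrr_old hirr)
    (locNe_old C hp i θ h)

end Pool.Agent.Results.MP_34be05_nt.GLnLowDegrees
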