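import Pool.Agent.L0h47.NF.Final
import Pool.Agent.L0h47.NFS.Bridge

/-!
# Non-Eisenstein ideals do not occur in degrees zero and one for `GL_n` over a number field
-/

set_option autoImplicit false

namespace Pool.Agent.Results.MP_34be05_nt.GLnOverNumberFields

open Pool.Agent.L0h47.NFS

theorem result {n : ℕ} (hn : 3 ≤ n) {F : Type} [Field F] [NumberField F] {Sg : Finset (Pl F)}
    (L : Level n Sg) {p : ℕ} (hp : p.Prime) {O : Type} [CommRing O] {W : Type} [AddCommGroup W]
    [Module O W] (C : Coef L p O W) {k : Type} [Field k] [Finite k] [CharP k p] [Algebra O k]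
    (θ : HA n Sg O →ₐ[O] k) {e t : ℤ} (he : e = 1 ∨ e = -1)
    {E : Type} [Field E] [NumberField E] [Algebra F E] [IsGalois F E] (ρ : Gal(E/F) →* GL (Fin n) k)
    (hatt : Attached θ e t ρ) (hirr : AbsIrr ρ) {i : ℕ} (h : C.LocNe i θ) :
    2 ≤ i :=
  Pool.Agent.L0h47.NF.fin_main n F Sg L.old p O W C.old hn hp k (oldθ θ) e t he E ρ
    (attached_old θ e t ρ hatt) (absIrr_old hirr) i (locNe_old C i θ h)

end Pool.Agent.Results.MP_34be05_nt.GLnOverNumberFields
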